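import Pool.Agent.Q35.GM.Stm

/-!
# Project GM (helper35), jobs APL and TAIL
-/

set_option autoImplicit false

namespace Pool.Agent.Q25.GM

open Pool.Agent.Q35.GM Filter

/-- convergence of a function which is close to constants at infinity -/
theorem conv_of_close (g : ℝ → ℝ)
    (h : ∀ ε : ℝ, 0 < ε → ∃ c : ℝ, ∀ᶠ T in atTop, |g T - c| < ε) :
    ∃ c : ℝ, Tendsto g atTop (nhds c) := by
  apply cauchy_map_iff_exists_tendsto.1
  rw [Metric.cauchy_iff]
  refine ⟨inferInstance, fun ε hε => ?_⟩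
  obtain ⟨c, hc⟩ := h (ε / 2) (by linarith)
  refine ⟨Metric.ball c (ε / 2), ?_, fun x hx y hy => ?_⟩
  · rw [mem_map]
    filter_upwards [hc] with T hT
    rw [Set.mem_preimage, Metric.mem_ball, Real.dist_eq]
    exact hT
  · rw [Metric.mem_ball] at hx hy
    have h1 := dist_triangle_right x y c
    linarith

theorem apl : S_APL := by
  classical
  intro Y Z A f e C hfin hcard hZ happ
  have hC : 0 ≤ C := by
    have h1 := hcard 1 le_rfl
    rw [one_pow, mul_one] at h1
    exact le_trans (Nat.cast_nonneg _) h1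
  apply conv_of_close
  intro ε hε
  obtain ⟨w, c, hw1, hwf, hwc⟩ := happ (ε / (4 * (C + 1))) (by positivity)
  refine ⟨c, ?_⟩
  have e1 : ∀ᶠ T : ℝ in atTop, |(∑ᶠ y ∈ A T, w y) / T ^ e - c| < ε / 4 := by
    have := (Metric.tendsto_nhds.1 hwc) (ε / 4) (by linarith)
    simpa only [Real.dist_eq] using this
  have e2 : ∀ᶠ T : ℝ in atTop,
      |(({y | y ∈ A T ∧ ¬ Z y}.ncard : ℕ) : ℝ) / T ^ e - 0| < ε / 4 := by
    have := (Metric.tendsto_nhds.1 hZ) (ε / 4) (by linarith)
    simpa only [Real.dist_eq] using this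
  filter_upwards [e1, e2, eventually_ge_atTop (1 : ℝ)] with T h1 h2 hT
  have hTe : 0 < T ^ e := by positivity
  set s : Finset Y := (hfin T).toFinset with hs
  have hwA : ∑ᶠ y ∈ A T, w y = ∑ y ∈ s, w y := finsum_mem_eq_finite_toFinset_sum _ (hfin T)
  have hfZ : ∑ᶠ y ∈ {y | y ∈ A T ∧ Z y}, f y = ∑ y ∈ s.filter Z, f y := by
    have : {y | y ∈ A T ∧ Z y} = ((s.filter Z : Finset Y) : Set Y) := by
      ext y
      simp [hs]
    rw [this]
    exact finsum_mem_coe_finset _ _
  have hnc : {y | y ∈ A T ∧ ¬ Z y}.ncard = (s.filter fun y => ¬ Z y).card := by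
    have : {y | y ∈ A T ∧ ¬ Z y} = ((s.filter fun y => ¬ Z y : Finset Y) : Set Y) := by
      ext y
      simp [hs]
    rw [this, Set.ncard_coe_finset]
  have hsc : ((s.card : ℕ) : ℝ) ≤ C * T ^ e := by
    have := hcard T hT
    rwa [Set.ncard_eq_toFinset_card _ (hfin T)] at this
  have hdiff : |∑ y ∈ s.filter Z, f y - ∑ y ∈ s, w y| ≤
      ε / (4 * (C + 1)) * s.card + (s.filter fun y => ¬ Z y).card := by
    rw [← Finset.sum_filter_add_sum_filter_not s Z w, ← sub_sub, ← Finset.sum_sub_distrib]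
    refine le_trans (abs_sub _ _) ?_
    refine add_le_add ?_ ?_
    · refine le_trans (Finset.abs_sum_le_sum_abs _ _) ?_
      refine le_trans (Finset.sum_le_sum (g := fun _ => ε / (4 * (C + 1))) ?_) ?_
      · intro y hy
        rw [abs_sub_comm]
        exact hwf y (Finset.mem_filter.1 hy).2
      · rw [Finset.sum_const, nsmul_eq_mul, mul_comm]
        refine mul_le_mul_of_nonneg_left ?_ (by positivity)
        exact_mod_cast Finset.card_filter_le _ _
    · refine le_trans (Finset.abs_sum_le_sum_abs _ _) ?_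
      refine le_trans (Finset.sum_le_sum (g := fun _ => (1 : ℝ)) fun y _ => hw1 y) ?_
      rw [Finset.sum_const, nsmul_eq_mul, mul_one]
  change |(∑ᶠ y ∈ {y | y ∈ A T ∧ Z y}, f y) / T ^ e - c| < ε
  rw [hfZ]
  rw [hwA] at h1
  rw [hnc, sub_zero, abs_of_nonneg (by positivity)] at h2
  have h3 : |(∑ y ∈ s.filter Z, f y) / T ^ e - (∑ y ∈ s, w y) / T ^ e| ≤ ε / 4 + ε / 4 := by
    rw [← sub_div, abs_div, abs_of_pos hTe, div_le_iff₀ hTe]
    refine le_trans hdiff ?_
    have h4 : ε / (4 * (C + 1)) * s.card ≤ ε / 4 * T ^ e := by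
      have h5 : ε / (4 * (C + 1)) * s.card ≤ ε / (4 * (C + 1)) * (C * T ^ e) :=
        mul_le_mul_of_nonneg_left hsc (by positivity)
      refine le_trans h5 ?_
      have h6 : ε / (4 * (C + 1)) * (C * T ^ e) = ε / 4 * T ^ e * (C / (C + 1)) := by
        field_simp
      rw [h6]
      have h7 : C / (C + 1) ≤ 1 := by
        rw [div_le_one (by linarith)]
        linarith
      have h8 : 0 ≤ ε / 4 * T ^ e := by positivity
      nlinarith
    have h9 : ((s.filter fun y => ¬ Z y).card : ℝ) ≤ ε / 4 * T ^ e := by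
      rw [div_lt_iff₀ hTe] at h2
      exact h2.le
    linarith
  have h10 := abs_sub_le ((∑ y ∈ s.filter Z, f y) / T ^ e) ((∑ y ∈ s, w y) / T ^ e) c
  linarith

section

variable {PL : Type}

theorem dyadic (H : PL → ℝ) (r : ℕ) (C : ℝ) (hr : 3 ≤ r) (hC : 1 ≤ C) (h1 : ∀ W, 1 ≤ H W)
    (hfin : ∀ B : ℝ, {W : PL | H W ≤ B}.Finite)
    (htot : ∀ B : ℝ, 1 ≤ B → (({W : PL | H W ≤ B}.ncard : ℕ) : ℝ) ≤ C * B ^ r) (n : ℕ) :
    ∀ X : ℝ, 0 ≤ X → X < 2 ^ n →
      ∑ W ∈ (hfin X).toFinset, ((H W) ^ 2)⁻¹ ≤ 8 * C * X ^ (r - 2) := by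
  classical
  induction n with
  | zero =>
    intro X hX hX1
    have : (hfin X).toFinset = ∅ := by
      rw [Set.Finite.toFinset_eq_empty]
      ext W
      simp only [Set.mem_ofPred_eq, Set.mem_empty_iff_false, iff_false, not_le]
      have := h1 W
      rw [pow_zero] at hX1
      linarith
    rw [this, Finset.sum_empty]
    positivity
  | succ n ih =>
    intro X hX hX1
    by_cases hX2 : X < 1
    · have : (hfin X).toFinset = ∅ := by
        rw [Set.Finite.toFinset_eq_empty]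
        ext W
        simp only [Set.mem_ofPred_eq, Set.mem_empty_iff_false, iff_false, not_le]
        have := h1 W
        linarith
      rw [this, Finset.sum_empty]
      positivity
    push Not at hX2
    have h2 := ih (X / 2) (by linarith) (by rw [pow_succ] at hX1; linarith)
    have hsplit : (hfin X).toFinset = (hfin (X / 2)).toFinset ∪
        (hfin X).toFinset.filter fun W => X / 2 < H W := by
      ext W
      simp only [Set.Finite.mem_toFinset, Set.mem_ofPred_eq, Finset.mem_union, Finset.mem_filter]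
      constructor
      · intro h
        by_cases h' : H W ≤ X / 2
        · exact Or.inl h'
        · exact Or.inr ⟨h, not_le.1 h'⟩
      · rintro (h | h)
        · linarith
        · exact h.1
    have hdisj : Disjoint (hfin (X / 2)).toFinset
        ((hfin X).toFinset.filter fun W => X / 2 < H W) := by
      rw [Finset.disjoint_left]
      intro W hW hW'
      simp only [Set.Finite.mem_toFinset, Set.mem_ofPred_eq] at hW
      have := (Finset.mem_filter.1 hW').2
      linarith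
    rw [hsplit, Finset.sum_union hdisj]
    have h3 : ∑ W ∈ (hfin X).toFinset.filter (fun W => X / 2 < H W), ((H W) ^ 2)⁻¹ ≤
        4 * C * X ^ (r - 2) := by
      have h4 : ∀ W ∈ (hfin X).toFinset.filter (fun W => X / 2 < H W),
          ((H W) ^ 2)⁻¹ ≤ 4 / X ^ 2 := by
        intro W hW
        have h5 := (Finset.mem_filter.1 hW).2
        rw [inv_eq_one_div, div_le_div_iff₀ (by have := h1 W; positivity) (by positivity)]
        nlinarith
      refine le_trans (Finset.sum_le_sum h4) ?_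
      rw [Finset.sum_const, nsmul_eq_mul]
      have h6 : (((hfin X).toFinset.filter (fun W => X / 2 < H W)).card : ℝ) ≤ C * X ^ r := by
        have h7 := htot X hX2
        rw [Set.ncard_eq_toFinset_card _ (hfin X)] at h7
        refine le_trans ?_ h7
        exact_mod_cast Finset.card_filter_le _ _
      have h8 : X ^ r = X ^ (r - 2) * X ^ 2 := by
        rw [← pow_add]
        congr 1
        omega
      have hX0 : 0 < X := by linarith
      calc _ ≤ C * X ^ r * (4 / X ^ 2) := mul_le_mul_of_nonneg_right h6 (by positivity)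
        _ = 4 * C * X ^ (r - 2) := by
          rw [h8]
          field_simp
    have h9 : (X / 2) ^ (r - 2) ≤ X ^ (r - 2) / 2 := by
      obtain ⟨m, hm⟩ : ∃ m, r - 2 = m + 1 := ⟨r - 3, by omega⟩
      rw [hm, div_pow]
      have h10 : (2 : ℝ) ≤ 2 ^ (m + 1) := by
        have : (1 : ℝ) ≤ 2 ^ m := one_le_pow₀ (by norm_num)
        rw [pow_succ]
        linarith
      exact div_le_div_of_nonneg_left (by positivity) (by norm_num) h10
    nlinarith

end

theorem tail : S_TAIL := by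
  classical
  intro PL L On h H v Λ r d C η C' hS hU
  have hC' := hU.one_le
  refine ⟨8 * C' ^ 3, by positivity, ?_⟩
  intro T z hT hz
  set X : ℝ := T ^ 2 / z with hX
  have hX0 : 0 ≤ X := by positivity
  have hTf : {l | h l ≤ T}.Finite := hS.fin T
  set A : Finset L := hTf.toFinset with hA
  set 𝒲 : Finset PL := (hU.fin X).toFinset with hW
  -- pairs in one plane
  have hpl : ∀ W ∈ 𝒲, (((A ×ˢ A).filter fun p : L × L => p.1 ≠ p.2 ∧ On p.1 W ∧ On p.2 W).card : ℝ)
      ≤ C' ^ 2 * T ^ 4 * ((H W) ^ 2)⁻¹ := by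
    intro W hWm
    have hH : 1 ≤ H W := hS.one_le_H W
    by_cases hne : ((A ×ˢ A).filter fun p : L × L => p.1 ≠ p.2 ∧ On p.1 W ∧ On p.2 W).Nonempty
    · obtain ⟨p, hp⟩ := hne
      have hLf : {l : L | On l W ∧ h l ≤ T}.Finite := hTf.subset fun l hl => hl.2
      rw [Finset.mem_filter, Finset.mem_product] at hp
      have hp1 : h p.1 ≤ T := by simpa [hA] using hp.1.1
      have hp2 : h p.2 ≤ T := by simpa [hA] using hp.1.2
      have h2 : 2 ≤ {l : L | On l W ∧ h l ≤ T}.ncard := by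
        have h3 : ({p.1, p.2} : Set L) ⊆ {l : L | On l W ∧ h l ≤ T} := by
          intro l hl
          rcases hl with rfl | rfl
          · exact ⟨hp.2.2.1, hp1⟩
          · exact ⟨hp.2.2.2, hp2⟩
        have h4 := Set.ncard_le_ncard h3 hLf
        rwa [Set.ncard_pair hp.2.1] at h4
      have h5 := hU.cnt W T h2
      have h6 : ((A ×ˢ A).filter fun p : L × L => p.1 ≠ p.2 ∧ On p.1 W ∧ On p.2 W) ⊆
          hLf.toFinset ×ˢ hLf.toFinset := by
        intro q hq
        rw [Finset.mem_filter, Finset.mem_product] at hq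
        rw [Finset.mem_product]
        simp only [Set.Finite.mem_toFinset, Set.mem_ofPred_eq]
        have hq1 : h q.1 ≤ T := by simpa [hA] using hq.1.1
        have hq2 : h q.2 ≤ T := by simpa [hA] using hq.1.2
        exact ⟨⟨hq.2.2.1, hq1⟩, hq.2.2.2, hq2⟩
      have h7 := Finset.card_le_card h6
      rw [Finset.card_product] at h7
      have h8 : (({l : L | On l W ∧ h l ≤ T}.ncard : ℕ) : ℝ) = (hLf.toFinset.card : ℝ) := by
        rw [Set.ncard_eq_toFinset_card _ hLf]
      rw [h8] at h5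
      have h9 : (((A ×ˢ A).filter fun p : L × L => p.1 ≠ p.2 ∧ On p.1 W ∧ On p.2 W).card : ℝ) ≤
          (hLf.toFinset.card : ℝ) * hLf.toFinset.card := by exact_mod_cast h7
      refine le_trans h9 ?_
      have h10 : (hLf.toFinset.card : ℝ) * hLf.toFinset.card ≤
          (C' * (T ^ 2 / H W)) * (C' * (T ^ 2 / H W)) :=
        mul_le_mul h5 h5 (Nat.cast_nonneg _) (by positivity)
      refine le_trans h10 (le_of_eq ?_)
      field_simp
    · rw [Finset.not_nonempty_iff_eq_empty] at hne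
      rw [hne, Finset.card_empty]
      have : (0 : ℝ) ≤ C' ^ 2 * T ^ 4 * ((H W) ^ 2)⁻¹ := by positivity
      simpa using this
  -- all pairs
  have hsub : {p : L × L | p.1 ≠ p.2 ∧ (∃ W, On p.1 W ∧ On p.2 W ∧ H W ≤ T ^ 2 / z) ∧ h p.1 ≤ T ∧
      h p.2 ≤ T} ⊆ ((𝒲.biUnion fun W => (A ×ˢ A).filter fun p : L × L =>
        p.1 ≠ p.2 ∧ On p.1 W ∧ On p.2 W : Finset (L × L)) : Set (L × L)) := by
    rintro p ⟨hp, ⟨W, h1, h2, h3⟩, h4, h5⟩
    rw [Finset.mem_coe, Finset.mem_biUnion]
    refine ⟨W, ?_, ?_⟩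
    · rw [hW, Set.Finite.mem_toFinset]
      exact h3
    · rw [Finset.mem_filter, Finset.mem_product, hA, Set.Finite.mem_toFinset,
        Set.Finite.mem_toFinset]
      exact ⟨⟨h4, h5⟩, hp, h1, h2⟩
  have h1 := Set.ncard_le_ncard hsub (Finset.finite_toSet _)
  rw [Set.ncard_coe_finset] at h1
  have h2 := h1.trans Finset.card_biUnion_le
  have h3 : (({p : L × L | p.1 ≠ p.2 ∧ (∃ W, On p.1 W ∧ On p.2 W ∧ H W ≤ T ^ 2 / z) ∧ h p.1 ≤ T ∧
      h p.2 ≤ T}.ncard : ℕ) : ℝ) ≤ ∑ W ∈ 𝒲, C' ^ 2 * T ^ 4 * ((H W) ^ 2)⁻¹ := by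
    have h4 : (({p : L × L | p.1 ≠ p.2 ∧ (∃ W, On p.1 W ∧ On p.2 W ∧ H W ≤ T ^ 2 / z) ∧ h p.1 ≤ T ∧
      h p.2 ≤ T}.ncard : ℕ) : ℝ) ≤ ((∑ W ∈ 𝒲, ((A ×ˢ A).filter fun p : L × L =>
        p.1 ≠ p.2 ∧ On p.1 W ∧ On p.2 W).card : ℕ) : ℝ) := by exact_mod_cast h2
    refine le_trans h4 ?_
    push_cast
    exact Finset.sum_le_sum hpl
  refine le_trans h3 ?_
  rw [← Finset.mul_sum]
  obtain ⟨n, hn⟩ : ∃ n : ℕ, X < 2 ^ n := pow_unbounded_of_one_lt X (by norm_num)
  have h5 := dyadic H r C' hS.hr hC' hS.one_le_H hU.fin hU.tot n X hX0 hn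
  refine le_trans (mul_le_mul_of_nonneg_left h5 (by positivity)) ?_
  have hr := hS.hr
  obtain ⟨m, rfl⟩ : ∃ m, r = m + 3 := ⟨r - 3, by omega⟩
  have h6 : m + 3 - 2 = m + 1 := by omega
  rw [h6, hX, div_pow]
  have hz0 : 0 < z := by linarith
  have h7 : z ≤ z ^ (m + 1) := by
    have : 1 ≤ z ^ m := one_le_pow₀ hz
    rw [pow_succ]
    nlinarith
  have h8 : C' ^ 2 * T ^ 4 * (8 * C' * ((T ^ 2) ^ (m + 1) / z ^ (m + 1))) =
      8 * C' ^ 3 * T ^ (2 * (m + 3)) / z ^ (m + 1) := by
    rw [← pow_mul]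
    have : T ^ (2 * (m + 3)) = T ^ 4 * T ^ (2 * (m + 1)) := by
      rw [← pow_add]
      congr 1
      ring
    rw [this]
    ring
  rw [h8]
  have h9 : 8 * C' ^ 3 / z * T ^ (2 * (m + 3)) = 8 * C' ^ 3 * T ^ (2 * (m + 3)) / z := by ring
  rw [h9]
  exact div_le_div_of_nonneg_left (by positivity) hz0 h7

end Pool.Agent.Q25.GM
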